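import Pool.Agent.Helper80.Sec.FatU

/-!
Generalized secant conjecture for four conditions given by a rectangle and full columns; in
particular all Schubert problems with four conditions on `G(2, n)`.
-/

namespace Pool.Agent.Results.MP_635f6c_ag.FourFlags

open Pool.Agent.Helper80.Sec

/-- Let `n = k + l` with `k, l ≥ 1`, let `λ^j = (c_j + s_j, ..., c_j + s_j, c_j, ..., c_j)`
(`r_j` entries `c_j + s_j` and `k - r_j` entries `c_j`), `j = 1, ..., 4`, be a Schubert problem on
`G(k, n)` and put `l' = l - ∑ c_j`. Suppose that `l' ≥ 0`, `∑ r_j = 2 k`, `∑ s_j = 2 l'` and that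
`r_j ≥ 1` if `s_j > l'`. Let `F^1, ..., F^4` be generalized secant flags along pairwise disjoint
intervals of the rational normal curve. Then every point of the intersection of the Schubert
varieties `X_(λ^j) F^j` is real and is a point of transverse intersection. If `s_j ≤ l'` for all
`j` and `r_i + r_j = k` or `s_i + s_j = l'` for all `i ≠ j`, then the intersection consists of
exactly `binomial(D, e)` points, where `D` is the smallest of the eight numbers `l' + r_j - s_j`,
`k + s_j - r_j` and `e` is the smallest of the eight numbers `r_j`, `k - r_j`. Otherwise the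
intersection is empty. (If `k = 2` and `r_j = 1` for all `j` then the `λ^j = (c_j + s_j, c_j)` are
four arbitrary partitions and the two conditions on the sums hold.) -/
theorem result {n k l l' : ℕ} (c r s : Fin 4 → ℕ) (hn : k + l = n) (hk : 1 ≤ k) (hl : 1 ≤ l)
    (hl' : l' + ∑ j, c j = l) (hrk : ∀ j, r j ≤ k) (hcs : ∀ j, c j + s j ≤ l)
    (hr1 : ∀ j, s j ≤ l' ∨ 1 ≤ r j)
    (hr : ∑ j, r j = 2 * k) (hs : ∑ j, s j = 2 * l')
    (hcod : ∑ j, (k * c j + r j * s j) = k * l)
    (I : Fin 4 → Set (OnePoint ℝ)) (hI : ∀ j, IsPreconnected (I j))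
    (hdis : ∀ i j, i ≠ j → Disjoint (I i) (I j))
    (F : Fin 4 → ℕ → Submodule ℂ (Fin n → ℂ)) (hF : ∀ j, IsSecantFlag n (I j) (F j)) :
    (∀ H : Submodule ℂ (Fin n → ℂ),
      (∀ j, H ∈ Schubert n k (fun i => if (i : ℕ) < r j then c j + s j else c j) (F j)) →
        IsRealPoint H ∧
          TransverseAt n k (fun j i => if (i : ℕ) < r j then c j + s j else c j) F H) ∧
    (((∀ j, s j ≤ l') ∧ ∀ i j, i ≠ j → r i + r j = k ∨ s i + s j = l') →
      {H : Submodule ℂ (Fin n → ℂ) | ∀ j, H ∈ Schubert n k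
        (fun i => if (i : ℕ) < r j then c j + s j else c j) (F j)}.encard =
      ((⨅ j, min (l' + r j - s j) (k + s j - r j)).choose (⨅ j, min (r j) (k - r j)) : ℕ)) ∧
    (¬ ((∀ j, s j ≤ l') ∧ ∀ i j, i ≠ j → r i + r j = k ∨ s i + s j = l') →
      {H : Submodule ℂ (Fin n → ℂ) | ∀ j, H ∈ Schubert n k
        (fun i => if (i : ℕ) < r j then c j + s j else c j) (F j)} = ∅) :=
  ⟨fun _ hH => fatU_real_transverse hn hk hl hl' hrk hcs hr1 hr hs hcod hI hdis hF hH,
    fun h => fatU_encard hn hk hl hl' hrk hcs hr hs hI hdis hF h.1 h.2,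
    fun h => fatU_empty hn hk hl hl' hrk hcs hr1 hr hs hcod hI hdis hF h⟩

end Pool.Agent.Results.MP_635f6c_ag.FourFlags
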