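import Pool.Agent.Helper80.Sec.RectE

/-!
Generalized secant conjecture for four rectangular conditions, on all Grassmannians.
-/

namespace Pool.Agent.Results.MP_635f6c_ag.RectangleProblems

open Pool.Agent.Helper80.Sec

/-- Let `n = k + l` and let `λ^j = (l, ..., l, s_j, ..., s_j, 0, ..., 0)` (`b j` entries `l` and
`r j` entries `s j`), `j = 1, ..., m`, be a Schubert problem on `G(k, n)` with `r j = 0` outside of
a set `J` of four indices; put `k' = k - ∑ b j`. Suppose that `∑ r j = 2 k'` and `∑ s j = 2 l`,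
where the sums are over `J`, and that `s j < l` if `r j = 0` and `1 ≤ s j` if `k' ≤ r j`, `j ∈ J`.
Let `F^1, ..., F^m` be generalized secant flags along pairwise disjoint intervals of the rational
normal curve. Then every point of the intersection of the Schubert varieties `X_(λ^j) F^j` is real
and is a point of transverse intersection. If `r j ≤ k'` for all `j ∈ J` and all two different
elements `i`, `j` of `J` satisfy `r i + r j = k'` or `s i + s j = l`, then the intersection
consists of exactly `binomial(D, e)` points, where `D` is the smallest of the eight numbers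
`l + r j - s j`, `k' + s j - r j` and `e` is the smallest of the eight numbers `r j`, `k' - r j`
(`j ∈ J`). Otherwise the intersection is empty. -/
theorem result {n m k k' l : ℕ} (b r s : Fin m → ℕ) (hk : k' + ∑ j, b j = k) (hn : k + l = n)
    (hl : 1 ≤ l) (J : Finset (Fin m)) (hJ : J.card = 4) (hr0 : ∀ j, j ∉ J → r j = 0)
    (hbr : ∀ j, b j + r j ≤ k) (hsl : ∀ j, s j ≤ l)
    (hw : ∀ j ∈ J, s j < l + r j ∧ (r j < k' ∨ 1 ≤ s j))
    (hr : ∑ j ∈ J, r j = 2 * k') (hs : ∑ j ∈ J, s j = 2 * l)
    (hcod : ∑ j, (b j * l + r j * s j) = k * l)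
    (I : Fin m → Set (OnePoint ℝ)) (hI : ∀ j, IsPreconnected (I j))
    (hdis : ∀ i j, i ≠ j → Disjoint (I i) (I j))
    (F : Fin m → ℕ → Submodule ℂ (Fin n → ℂ)) (hF : ∀ j, IsSecantFlag n (I j) (F j)) :
    (∀ H : Submodule ℂ (Fin n → ℂ),
      (∀ j, H ∈ Schubert n k
        (fun i => if (i : ℕ) < b j then l else if (i : ℕ) < b j + r j then s j else 0) (F j)) →
        IsRealPoint H ∧ TransverseAt n k
          (fun j i => if (i : ℕ) < b j then l else if (i : ℕ) < b j + r j then s j else 0)
            F H) ∧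
    (((∀ j ∈ J, r j ≤ k') ∧ ∀ i ∈ J, ∀ j ∈ J, i ≠ j → r i + r j = k' ∨ s i + s j = l) →
      {H : Submodule ℂ (Fin n → ℂ) | ∀ j, H ∈ Schubert n k
        (fun i => if (i : ℕ) < b j then l else if (i : ℕ) < b j + r j then s j else 0)
        (F j)}.encard =
      ((⨅ j : J, min (l + r j - s j) (k' + s j - r j)).choose
        (⨅ j : J, min (r j) (k' - r j)) : ℕ)) ∧
    (¬ ((∀ j ∈ J, r j ≤ k') ∧ ∀ i ∈ J, ∀ j ∈ J, i ≠ j → r i + r j = k' ∨ s i + s j = l) →
      {H : Submodule ℂ (Fin n → ℂ) | ∀ j, H ∈ Schubert n k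
        (fun i => if (i : ℕ) < b j then l else if (i : ℕ) < b j + r j then s j else 0)
        (F j)} = ∅) :=
  ⟨fun _ hH => rectE_real_transverse hk hn hl hJ hr0 hbr hsl hw hr hs hcod hI hdis hF hH,
    fun h => rectE_encard hk hn hJ hr0 hsl hw hr hs hcod hI hdis hF h.1 h.2,
    fun h => rectE_empty hk hn hJ hr0 hbr hsl hw hr hs hcod hdis hF h⟩

end Pool.Agent.Results.MP_635f6c_ag.RectangleProblems
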